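import Mathlib

/-!
# Finitely supported sequences with the lexicographic order

For a linear order `M` with a distinguished element `z` let `KK M z` be the set of all sequences in
`M` which are eventually equal to `z`, with the lexicographic order.
-/

set_option autoImplicit false

open Cardinal Set

namespace Pool.Agent.Helper305.AD

/-- LOTS embedding: strictly increasing and continuous for the order topologies. -/
def LOTSEmb (A B : Type) [LinearOrder A] [LinearOrder B] : Prop :=
  ∃ f : A → B, StrictMono f ∧ @Continuous A B (Preorder.topology A) (Preorder.topology B) f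

/-- at least two points, and every open interval with different end points has cardinality `ℵ₁` -/
def AlephOneDense (L : Type) [LinearOrder L] : Prop :=
  Nontrivial L ∧ ∀ a b : L, a < b → #(Ioo a b) = ℵ₁

/-- every point has countable cofinality and coinitiality (where they are defined) -/
def CountableCharacter (L : Type) [LinearOrder L] : Prop :=
  ∀ x : L, ((∃ S : Set L, S ⊆ Iio x ∧ IsLUB S x) → ∃ S : Set L, S ⊆ Iio x ∧ S.Countable ∧ IsLUB S x) ∧
    ((∃ S : Set L, S ⊆ Ioi x ∧ IsGLB S x) → ∃ S : Set L, S ⊆ Ioi x ∧ S.Countable ∧ IsGLB S x)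

/-- the class `𝒞` -/
def InC (L : Type) [LinearOrder L] : Prop := AlephOneDense L ∧ CountableCharacter L

lemma AlephOneDense.denselyOrdered {L : Type} [LinearOrder L] (h : AlephOneDense L) :
    DenselyOrdered L := by
  refine ⟨fun a b hab => ?_⟩
  have h1 := h.2 a b hab
  have h2 : Nonempty (Ioo a b) := by
    rw [← Cardinal.mk_ne_zero_iff, h1]
    exact (Cardinal.aleph_pos 1).ne'
  obtain ⟨x, hx⟩ := h2
  exact ⟨x, hx.1, hx.2⟩

/-- A strictly increasing map is continuous for the order topologies if it preserves one-sided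
limits. -/
lemma continuous_of_strictMono {A B : Type} [LinearOrder A] [LinearOrder B] {f : A → B}
    (hf : StrictMono f) (h1 : ∀ a, ∀ u, u < f a → (∀ a', a ≤ a') ∨ ∃ a', a' < a ∧ u < f a')
    (h2 : ∀ a, ∀ u, f a < u → (∀ a', a' ≤ a) ∨ ∃ a', a < a' ∧ f a' < u) :
    @Continuous A B (Preorder.topology A) (Preorder.topology B) f := by
  let tA : TopologicalSpace A := Preorder.topology A
  let tB : TopologicalSpace B := Preorder.topology B
  have : OrderTopology A := ⟨rfl⟩
  have : OrderTopology B := ⟨rfl⟩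
  rw [OrderTopology.continuous_iff]
  intro u
  constructor
  · rw [isOpen_iff_mem_nhds]
    intro a ha
    have ha' : u < f a := ha
    rcases h1 a u ha' with h | ⟨a', h3, h4⟩
    · have : f ⁻¹' Ioi u = Set.univ := by
        ext b
        simp only [mem_preimage, mem_Ioi, mem_univ, iff_true]
        exact lt_of_lt_of_le ha' (hf.monotone (h b))
      rw [this]; exact Filter.univ_mem
    · refine Filter.mem_of_superset (Ioi_mem_nhds h3) fun b hb => ?_
      exact lt_trans h4 (hf hb)
  · rw [isOpen_iff_mem_nhds]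
    intro a ha
    have ha' : f a < u := ha
    rcases h2 a u ha' with h | ⟨a', h3, h4⟩
    · have : f ⁻¹' Iio u = Set.univ := by
        ext b
        simp only [mem_preimage, mem_Iio, mem_univ, iff_true]
        exact lt_of_le_of_lt (hf.monotone (h b)) ha'
      rw [this]; exact Filter.univ_mem
    · refine Filter.mem_of_superset (Iio_mem_nhds h3) fun b hb => ?_
      exact lt_trans (hf hb) h4

section K

variable (M : Type) [LinearOrder M] (z : M)

/-- eventually constant `z` sequences, lexicographically ordered -/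
def KK : Type := {f : Lex (ℕ → M) // ∃ N : ℕ, ∀ n, N ≤ n → f n = z}

noncomputable instance : LinearOrder (KK M z) := inferInstanceAs (LinearOrder
  {f : Lex (ℕ → M) // ∃ N : ℕ, ∀ n, N ≤ n → f n = z})

variable {M z}

/-- the value of the sequence at `n` -/
def KK.at (f : KK M z) (n : ℕ) : M := f.1 n

lemma KK.lt_iff {f g : KK M z} : f < g ↔ ∃ n, (∀ j < n, f.at j = g.at j) ∧ f.at n < g.at n :=
  Iff.rfl

lemma KK.ext' {f g : KK M z} (h : ∀ n, f.at n = g.at n) : f = g :=
  Subtype.ext (funext h)

open Classical in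
/-- a bound of the support -/
noncomputable def KK.bd (f : KK M z) : ℕ := Nat.find f.2

lemma KK.at_bd (f : KK M z) {n : ℕ} (h : f.bd ≤ n) : f.at n = z := by
  classical
  exact Nat.find_spec f.2 n h

open Classical in
/-- change the value at `n` -/
noncomputable def KK.upd (f : KK M z) (n : ℕ) (m : M) : KK M z :=
  ⟨toLex fun k => if k = n then m else f.at k, max f.bd (n + 1), fun k hk => by
    show (if k = n then m else f.at k) = z
    rw [if_neg (by have := (le_max_right _ _).trans hk; omega)]
    exact f.at_bd ((le_max_left _ _).trans hk)⟩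

lemma KK.upd_self (f : KK M z) (n : ℕ) (m : M) : (f.upd n m).at n = m := by
  show (if n = n then m else f.at n) = m
  simp

lemma KK.upd_ne (f : KK M z) {n k : ℕ} (m : M) (h : k ≠ n) : (f.upd n m).at k = f.at k := by
  show (if k = n then m else f.at k) = _
  simp [h]

lemma KK.upd_lt (f : KK M z) {n : ℕ} {m : M} (h : m < f.at n) : f.upd n m < f := by
  rw [KK.lt_iff]
  exact ⟨n, fun j hj => f.upd_ne m hj.ne, by rwa [f.upd_self]⟩

lemma KK.lt_upd (f : KK M z) {n : ℕ} {m : M} (h : f.at n < m) : f < f.upd n m := by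
  rw [KK.lt_iff]
  exact ⟨n, fun j hj => (f.upd_ne m hj.ne).symm, by rwa [f.upd_self]⟩

/-- if `f < g` then all sequences which agree with `f` up to some place are below `g` -/
lemma KK.lt_of_agree {f g : KK M z} (h : f < g) : ∃ N, ∀ h : KK M z, (∀ j < N, h.at j = f.at j) →
    h < g := by
  obtain ⟨n, h1, h2⟩ := KK.lt_iff.1 h
  refine ⟨n + 1, fun h h3 => KK.lt_iff.2 ⟨n, fun j hj => ?_, ?_⟩⟩
  · rw [h3 j (by omega), h1 j hj]
  · rw [h3 n (by omega)]; exact h2

lemma KK.agree_lt {f g : KK M z} (h : f < g) : ∃ N, ∀ h : KK M z, (∀ j < N, h.at j = g.at j) →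
    f < h := by
  obtain ⟨n, h1, h2⟩ := KK.lt_iff.1 h
  refine ⟨n + 1, fun h h3 => KK.lt_iff.2 ⟨n, fun j hj => ?_, ?_⟩⟩
  · rw [h3 j (by omega), h1 j hj]
  · rw [h3 n (by omega)]; exact h2

lemma mk_KK_le (hM : #M = ℵ₁) : #(KK M z) ≤ ℵ₁ := by
  haveI : Infinite M := by
    rw [Cardinal.infinite_iff, hM]
    exact Cardinal.aleph0_le_aleph 1
  rw [← hM, ← Cardinal.mk_list_eq_mk M]
  refine Cardinal.mk_le_of_injective (f := fun f : KK M z => List.ofFn fun i : Fin f.bd => f.at i) ?_
  intro f g hfg
  have hfg' : List.ofFn (fun i : Fin f.bd => f.at i) = List.ofFn fun i : Fin g.bd => g.at i := hfg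
  have h1 : f.bd = g.bd := by
    have := congrArg List.length hfg'
    simpa using this
  refine KK.ext' fun n => ?_
  rcases lt_or_ge n f.bd with h2 | h2
  · have h3 := congrArg (fun l : List M => l[n]?) hfg'
    rw [List.getElem?_ofFn, List.getElem?_ofFn] at h3
    simpa [h2, h1 ▸ h2] using h3
  · rw [f.at_bd h2, g.at_bd (h1 ▸ h2)]

lemma inC_KK (hM : #M = ℵ₁) (hz : #(Ioi z) = ℵ₁) (hz' : ∃ m, m < z) : InC (KK M z) := by
  obtain ⟨m₀, hm₀⟩ := hz'
  obtain ⟨m₁, hm₁⟩ : ∃ m, z < m := by
    have h2 : Nonempty (Ioi z) := by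
      rw [← Cardinal.mk_ne_zero_iff, hz]
      exact (Cardinal.aleph_pos 1).ne'
    obtain ⟨x, hx⟩ := h2
    exact ⟨x, hx⟩
  refine ⟨⟨?_, ?_⟩, ?_⟩
  · have f : KK M z := ⟨toLex fun _ => z, 0, fun _ _ => rfl⟩
    refine ⟨f, f.upd f.bd m₁, (f.lt_upd ?_).ne⟩
    rw [f.at_bd le_rfl]; exact hm₁
  · intro f g hfg
    apply le_antisymm
    · exact (Cardinal.mk_set_le _).trans (mk_KK_le hM)
    · rw [← hz]
      obtain ⟨N, hN⟩ := KK.lt_of_agree hfg
      set n := max N f.bd with hn
      have h1 : ∀ m : Ioi z, f.upd n m ∈ Ioo f g := by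
        intro m
        constructor
        · apply f.lt_upd
          rw [f.at_bd (le_max_right _ _)]
          exact m.2
        · exact hN _ fun j hj => f.upd_ne _ (by have := le_max_left N f.bd; omega)
      refine Cardinal.mk_le_of_injective (f := fun m : Ioi z => (⟨f.upd n m, h1 m⟩ : Ioo f g)) ?_
      intro m m' hmm
      have h2 : f.upd n m = f.upd n m' := congrArg Subtype.val hmm
      have h3 := congrArg (fun h : KK M z => h.at n) h2
      rw [f.upd_self, f.upd_self] at h3
      exact Subtype.ext h3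
  · intro f
    constructor
    · intro _
      refine ⟨range fun n : ℕ => f.upd (f.bd + n) m₀, ?_, countable_range _, ?_, ?_⟩
      · rintro _ ⟨n, rfl⟩
        apply f.upd_lt
        rw [f.at_bd (by omega)]; exact hm₀
      · rintro _ ⟨n, rfl⟩
        apply le_of_lt
        apply f.upd_lt
        rw [f.at_bd (by omega)]; exact hm₀
      · intro g hg
        by_contra hlt
        rw [not_le] at hlt
        obtain ⟨N, hN⟩ := KK.agree_lt hlt
        have h1 := hN (f.upd (f.bd + N) m₀) fun j hj => f.upd_ne _ (by omega)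
        exact absurd (hg ⟨N, rfl⟩) (not_le.2 h1)
    · intro _
      refine ⟨range fun n : ℕ => f.upd (f.bd + n) m₁, ?_, countable_range _, ?_, ?_⟩
      · rintro _ ⟨n, rfl⟩
        apply f.lt_upd
        rw [f.at_bd (by omega)]; exact hm₁
      · rintro _ ⟨n, rfl⟩
        apply le_of_lt
        apply f.lt_upd
        rw [f.at_bd (by omega)]; exact hm₁
      · intro g hg
        by_contra hlt
        rw [not_le] at hlt
        obtain ⟨N, hN⟩ := KK.lt_of_agree hlt
        have h1 := hN (f.upd (f.bd + N) m₁) fun j hj => f.upd_ne _ (by omega)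
        exact absurd (hg ⟨N, rfl⟩) (not_le.2 h1)

end K

end Pool.Agent.Helper305.AD
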