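import Pool.Agent.Helper305_AD.A

/-!
# Embedding the finitely supported sequences
-/

set_option autoImplicit false

open Cardinal Set

namespace Pool.Agent.Helper305.AD

lemma seq_of_lub {L : Type} [LinearOrder L] {x u : L} {S : Set L} (h1 : S ⊆ Iio x)
    (h2 : S.Countable) (h3 : IsLUB S x) (hu : u < x) :
    ∃ Y : ℕ → L, (∀ n, Y n < x) ∧ ∀ u, u < x → ∃ N, ∀ n, N ≤ n → u < Y n := by
  obtain ⟨s₀, hs₀, _⟩ := (lt_isLUB_iff h3).1 hu
  obtain ⟨s, hs⟩ := h2.exists_eq_range ⟨s₀, hs₀⟩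
  refine ⟨fun n => partialSups s n, fun n => ?_, fun u hu => ?_⟩
  · rw [partialSups_iff_forall (fun a => a < x) sup_lt_iff]
    intro j _
    apply h1
    rw [hs]
    exact ⟨j, rfl⟩
  · obtain ⟨t, ht, hut⟩ := (lt_isLUB_iff h3).1 hu
    rw [hs] at ht
    obtain ⟨N, rfl⟩ := ht
    exact ⟨N, fun n hn => lt_of_lt_of_le hut (le_partialSups_of_le s hn)⟩

lemma exists_below {L : Type} [LinearOrder L] [DenselyOrdered L] (hL : CountableCharacter L)
    {x u : L} (hu : u < x) :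
    ∃ Y : ℕ → L, (∀ n, Y n < x) ∧ ∀ u, u < x → ∃ N, ∀ n, N ≤ n → u < Y n := by
  have h1 : IsLUB (Iio x) x := by
    refine ⟨fun y hy => le_of_lt hy, fun b hb => ?_⟩
    by_contra hlt
    rw [not_le] at hlt
    obtain ⟨c, hc1, hc2⟩ := exists_between hlt
    exact absurd (hb hc2) (not_le.2 hc1)
  obtain ⟨S, hS1, hS2, hS3⟩ := (hL x).1 ⟨Iio x, subset_rfl, h1⟩
  exact seq_of_lub hS1 hS2 hS3 hu

lemma exists_above {L : Type} [LinearOrder L] [DenselyOrdered L] (hL : CountableCharacter L)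
    {x u : L} (hu : x < u) :
    ∃ Y : ℕ → L, (∀ n, x < Y n) ∧ ∀ u, x < u → ∃ N, ∀ n, N ≤ n → Y n < u := by
  have h1 : IsGLB (Ioi x) x := by
    refine ⟨fun y hy => le_of_lt hy, fun b hb => ?_⟩
    by_contra hlt
    rw [not_le] at hlt
    obtain ⟨c, hc1, hc2⟩ := exists_between hlt
    exact absurd (hb hc1) (not_le.2 hc2)
  obtain ⟨S, hS1, hS2, hS3⟩ := (hL x).2 ⟨Ioi x, subset_rfl, h1⟩
  have h4 := seq_of_lub (L := Lᵒᵈ) (x := OrderDual.toDual x) (u := OrderDual.toDual u)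
    (S := OrderDual.ofDual ⁻¹' S) (fun y hy => hS1 hy) (hS2.preimage OrderDual.ofDual.injective)
    hS3.dual hu
  obtain ⟨Y, hY1, hY2⟩ := h4
  exact ⟨fun n => OrderDual.ofDual (Y n), hY1, fun u hu => hY2 (OrderDual.toDual u) hu⟩

/-- an interval with a marked point -/
structure St (L : Type) [LinearOrder L] (a0 b0 : L) where
  a : L
  b : L
  x : L
  ha : a0 ≤ a
  hax : a < x
  hxb : x < b
  hb : b ≤ b0

section run

variable {L : Type} [LinearOrder L] {M : Type} [LinearOrder M] {z : M} {a0 b0 : L}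
variable (s0 : St L a0 b0) (T : ℕ → St L a0 b0 → M → St L a0 b0)

/-- follow the moves -/
def run (f : ℕ → M) : ℕ → St L a0 b0
  | 0 => s0
  | k + 1 => T k (run f k) (f k)

lemma run_congr {f g : ℕ → M} {n : ℕ} (h : ∀ j < n, f j = g j) :
    run s0 T f n = run s0 T g n := by
  induction n with
  | zero => rfl
  | succ k ih =>
    show T k (run s0 T f k) (f k) = T k (run s0 T g k) (g k)
    rw [ih fun j hj => h j (by omega), h k (by omega)]

variable (T1 : ∀ k s m, s.a ≤ (T k s m).a ∧ (T k s m).b ≤ s.b)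
include T1

lemma run_nested (f : ℕ → M) {k n : ℕ} (h : k ≤ n) :
    (run s0 T f k).a ≤ (run s0 T f n).a ∧ (run s0 T f n).b ≤ (run s0 T f k).b := by
  induction n, h using Nat.le_induction with
  | base => exact ⟨le_rfl, le_rfl⟩
  | succ n hn ih =>
    have h1 := T1 n (run s0 T f n) (f n)
    exact ⟨ih.1.trans h1.1, h1.2.trans ih.2⟩

omit T1 in
lemma run_x (T3 : ∀ k s, (T k s z).x = s.x) (f : KK M z) {n : ℕ} (h : f.bd ≤ n) :
    (run s0 T f.at n).x = (run s0 T f.at f.bd).x := by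
  induction n, h using Nat.le_induction with
  | base => rfl
  | succ n hn ih =>
    show (T n (run s0 T f.at n) (f.at n)).x = _
    rw [f.at_bd hn, T3, ih]

/-- the point given by a sequence -/
noncomputable def pt (f : KK M z) : L := (run s0 T f.at f.bd).x

lemma pt_mem (T3 : ∀ k s, (T k s z).x = s.x) (f : KK M z) (n : ℕ) :
    (run s0 T f.at n).a < pt s0 T f ∧ pt s0 T f < (run s0 T f.at n).b := by
  set N := max n f.bd with hN
  have h1 := run_nested s0 T T1 f.at (le_max_left n f.bd)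
  have h2 : (run s0 T f.at N).x = pt s0 T f := run_x s0 T T3 f (le_max_right n f.bd)
  rw [← h2]
  exact ⟨lt_of_le_of_lt h1.1 (run s0 T f.at N).hax, lt_of_lt_of_le (run s0 T f.at N).hxb h1.2⟩

end run

theorem emb_KK {L : Type} [LinearOrder L] {M : Type} [LinearOrder M] {z : M} {a0 b0 : L}
    (s0 : St L a0 b0) (T : ℕ → St L a0 b0 → M → St L a0 b0)
    (hlo : ∃ m, m < z) (hhi : ∃ m, z < m) (Y Z : L → ℕ → L)
    (hY : ∀ x, a0 < x → x < b0 → ∀ u, u < x → ∃ N, ∀ n, N ≤ n → u < Y x n)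
    (hZ : ∀ x, a0 < x → x < b0 → ∀ u, x < u → ∃ N, ∀ n, N ≤ n → Z x n < u)
    (T1 : ∀ k s m, s.a ≤ (T k s m).a ∧ (T k s m).b ≤ s.b)
    (T2 : ∀ k s m m', m < m' → (T k s m).b ≤ (T k s m').a)
    (T3 : ∀ k s, (T k s z).x = s.x)
    (T4 : ∀ k s, Y s.x k ≤ (T k s z).a ∧ (T k s z).b ≤ Z s.x k) : LOTSEmb (KK M z) L := by
  obtain ⟨m₀, hm₀⟩ := hlo
  obtain ⟨m₁, hm₁⟩ := hhi
  have hmono : StrictMono (pt s0 T (z := z)) := by
    intro f g hfg
    obtain ⟨n, h1, h2⟩ := KK.lt_iff.1 hfg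
    have h3 := (pt_mem s0 T T1 T3 f (n + 1)).2
    have h4 := (pt_mem s0 T T1 T3 g (n + 1)).1
    have h5 : run s0 T f.at n = run s0 T g.at n := run_congr s0 T h1
    have h6 : run s0 T f.at (n + 1) = T n (run s0 T g.at n) (f.at n) := by
      rw [← h5]; rfl
    have h7 : run s0 T g.at (n + 1) = T n (run s0 T g.at n) (g.at n) := rfl
    have h8 := T2 n (run s0 T g.at n) _ _ h2
    rw [← h6, ← h7] at h8
    exact lt_of_lt_of_le h3 (h8.trans h4.le)
  have hin : ∀ f : KK M z, a0 < pt s0 T f ∧ pt s0 T f < b0 := by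
    intro f
    have h1 := pt_mem s0 T T1 T3 f 0
    exact ⟨lt_of_le_of_lt (run s0 T f.at 0).ha h1.1, lt_of_lt_of_le h1.2 (run s0 T f.at 0).hb⟩
  refine ⟨pt s0 T (z := z), hmono, continuous_of_strictMono hmono ?_ ?_⟩
  · intro f u hu
    right
    obtain ⟨N, hN⟩ := hY _ (hin f).1 (hin f).2 u hu
    set n := max N f.bd with hn
    have h1 : (run s0 T f.at n).x = pt s0 T f := run_x s0 T T3 f (le_max_right N f.bd)
    have h2 : run s0 T f.at (n + 1) = T n (run s0 T f.at n) z := by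
      show T n (run s0 T f.at n) (f.at n) = _
      rw [f.at_bd (le_max_right N f.bd)]
    have h3 : u < (run s0 T f.at (n + 1)).a := by
      rw [h2]
      refine lt_of_lt_of_le ?_ (T4 n _).1
      rw [h1]
      exact hN n (le_max_left N f.bd)
    refine ⟨f.upd (n + 1) m₀, f.upd_lt ?_, ?_⟩
    · rw [f.at_bd (by have := le_max_right N f.bd; omega)]; exact hm₀
    · have h4 : run s0 T (f.upd (n + 1) m₀).at (n + 1) = run s0 T f.at (n + 1) :=
        run_congr s0 T fun j hj => f.upd_ne _ hj.ne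
      have h5 := (pt_mem s0 T T1 T3 (f.upd (n + 1) m₀) (n + 1)).1
      rw [h4] at h5
      exact h3.trans h5
  · intro f u hu
    right
    obtain ⟨N, hN⟩ := hZ _ (hin f).1 (hin f).2 u hu
    set n := max N f.bd with hn
    have h1 : (run s0 T f.at n).x = pt s0 T f := run_x s0 T T3 f (le_max_right N f.bd)
    have h2 : run s0 T f.at (n + 1) = T n (run s0 T f.at n) z := by
      show T n (run s0 T f.at n) (f.at n) = _
      rw [f.at_bd (le_max_right N f.bd)]
    have h3 : (run s0 T f.at (n + 1)).b < u := by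
      rw [h2]
      refine lt_of_le_of_lt (T4 n _).2 ?_
      rw [h1]
      exact hN n (le_max_left N f.bd)
    refine ⟨f.upd (n + 1) m₁, f.lt_upd ?_, ?_⟩
    · rw [f.at_bd (by have := le_max_right N f.bd; omega)]; exact hm₁
    · have h4 : run s0 T (f.upd (n + 1) m₁).at (n + 1) = run s0 T f.at (n + 1) :=
        run_congr s0 T fun j hj => f.upd_ne _ hj.ne
      have h5 := (pt_mem s0 T T1 T3 (f.upd (n + 1) m₁) (n + 1)).2
      rw [h4] at h5
      exact h5.trans h3

/-! ### The index order `τ + 1 + τ` -/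

/-- `τ + 1 + τ` -/
abbrev MM (τ : Type) : Type := Lex (τ ⊕ Lex (Unit ⊕ τ))

/-- the middle point -/
def zz (τ : Type) : MM τ := toLex (Sum.inr (toLex (Sum.inl ())))

/-- the order `K τ` -/
abbrev K (τ : Type) [LinearOrder τ] : Type := KK (MM τ) (zz τ)

lemma mk_MM {τ : Type} (h : #τ = ℵ₁) : #(MM τ) = ℵ₁ := by
  have h1 : #(MM τ) = #(τ ⊕ (Unit ⊕ τ)) := rfl
  have h2 : (ℵ₀ : Cardinal.{0}) ≤ ℵ₁ := Cardinal.aleph0_le_aleph 1
  rw [h1, Cardinal.mk_sum, Cardinal.mk_sum, h]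
  simp only [Cardinal.lift_id, Cardinal.mk_fintype, Fintype.card_unit, Nat.cast_one]
  rw [Cardinal.add_eq_right h2 (Cardinal.one_le_aleph0.trans h2), Cardinal.add_eq_self h2]

lemma mk_Ioi_zz {τ : Type} [LinearOrder τ] (h : #τ = ℵ₁) : #(Ioi (zz τ)) = ℵ₁ := by
  apply le_antisymm
  · rw [← mk_MM h]; exact Cardinal.mk_set_le _
  · rw [← h]
    refine Cardinal.mk_le_of_injective
      (f := fun t : τ => (⟨toLex (Sum.inr (toLex (Sum.inr t))), ?_⟩ : Ioi (zz τ))) ?_
    · show zz τ < _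
      exact Sum.Lex.inr_lt_inr_iff.2 (Sum.Lex.inl_lt_inr _ _)
    · intro t t' htt
      have h1 := congrArg Subtype.val htt
      have h2 : (Sum.inr (toLex (Sum.inr t)) : τ ⊕ Lex (Unit ⊕ τ)) =
        Sum.inr (toLex (Sum.inr t')) := h1
      have h3 := Sum.inr.inj h2
      have h4 : (Sum.inr t : Unit ⊕ τ) = Sum.inr t' := h3
      exact Sum.inr.inj h4

lemma exists_lt_zz {τ : Type} [LinearOrder τ] [Nonempty τ] : ∃ m, m < zz τ :=
  ⟨toLex (Sum.inl (Classical.arbitrary τ)), Sum.Lex.inl_lt_inr _ _⟩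

lemma exists_gt_zz {τ : Type} [LinearOrder τ] [Nonempty τ] : ∃ m, zz τ < m :=
  ⟨toLex (Sum.inr (toLex (Sum.inr (Classical.arbitrary τ)))),
    Sum.Lex.inr_lt_inr_iff.2 (Sum.Lex.inl_lt_inr _ _)⟩

lemma inC_K {τ : Type} [LinearOrder τ] (h : #τ = ℵ₁) : InC (K τ) := by
  haveI : Nonempty τ := by
    rw [← Cardinal.mk_ne_zero_iff, h]
    exact (Cardinal.aleph_pos 1).ne'
  exact inC_KK (mk_MM h) (mk_Ioi_zz h) exists_lt_zz

/-- there is a family of disjoint intervals inside `(a, b)`, ordered in type `τ` -/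
def Has (τ : Type) [LinearOrder τ] {L : Type} [LinearOrder L] (a b : L) : Prop :=
  ∃ u v : τ → L, (∀ t, a ≤ u t ∧ u t < v t ∧ v t ≤ b) ∧ ∀ t t', t < t' → v t ≤ u t'

theorem emb_K {τ : Type} [LinearOrder τ] [Nonempty τ] {L : Type} [LinearOrder L]
    [DenselyOrdered L] (hL : CountableCharacter L) {a0 b0 : L} (h0 : a0 < b0)
    (hτ : ∀ a b : L, a0 ≤ a → a < b → b ≤ b0 → Has τ a b) : LOTSEmb (K τ) L := by
  classical
  have hY : ∀ x : L, ∃ Y : ℕ → L, a0 < x → (∀ n, Y n < x) ∧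
      ∀ u, u < x → ∃ N, ∀ n, N ≤ n → u < Y n := by
    intro x
    by_cases hx : a0 < x
    · obtain ⟨Y, h⟩ := exists_below hL hx
      exact ⟨Y, fun _ => h⟩
    · exact ⟨fun _ => x, fun h => absurd h hx⟩
  have hZ : ∀ x : L, ∃ Z : ℕ → L, x < b0 → (∀ n, x < Z n) ∧
      ∀ u, x < u → ∃ N, ∀ n, N ≤ n → Z n < u := by
    intro x
    by_cases hx : x < b0
    · obtain ⟨Y, h⟩ := exists_above hL hx
      exact ⟨Y, fun _ => h⟩
    · exact ⟨fun _ => x, fun h => absurd h hx⟩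
  choose Y hY using hY
  choose Z hZ using hZ
  have hT : ∀ (k : ℕ) (s : St L a0 b0), ∃ T : MM τ → St L a0 b0,
      (∀ m, s.a ≤ (T m).a ∧ (T m).b ≤ s.b) ∧ (∀ m m', m < m' → (T m).b ≤ (T m').a) ∧
      (T (zz τ)).x = s.x ∧ Y s.x k ≤ (T (zz τ)).a ∧ (T (zz τ)).b ≤ Z s.x k := by
    intro k s
    have hx1 : a0 < s.x := lt_of_le_of_lt s.ha s.hax
    have hx2 : s.x < b0 := lt_of_lt_of_le s.hxb s.hb
    obtain ⟨a', ha1, ha2⟩ := exists_between (max_lt s.hax ((hY s.x hx1).1 k))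
    obtain ⟨b', hb1, hb2⟩ := exists_between (lt_min s.hxb ((hZ s.x hx2).1 k))
    have ha3 : s.a < a' := lt_of_le_of_lt (le_max_left _ _) ha1
    have ha4 : Y s.x k < a' := lt_of_le_of_lt (le_max_right _ _) ha1
    have hb3 : b' < s.b := lt_of_lt_of_le hb2 (min_le_left _ _)
    have hb4 : b' < Z s.x k := lt_of_lt_of_le hb2 (min_le_right _ _)
    have ha'0 : a0 ≤ a' := s.ha.trans ha3.le
    have hb'0 : b' ≤ b0 := hb3.le.trans s.hb
    obtain ⟨u, v, huv, huv'⟩ := hτ s.a a' s.ha ha3 (by order)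
    obtain ⟨u', v', huv1, huv1'⟩ := hτ b' s.b (by order) hb3 s.hb
    choose w hw using fun t => exists_between (huv t).2.1
    choose w' hw' using fun t => exists_between (huv1 t).2.1
    let Tl : τ → St L a0 b0 := fun t => ⟨u t, v t, w t, s.ha.trans (huv t).1, (hw t).1, (hw t).2,
      (huv t).2.2.trans (by order)⟩
    let Tr : τ → St L a0 b0 := fun t => ⟨u' t, v' t, w' t, le_trans (by order) (huv1 t).1, (hw' t).1,
      (hw' t).2, (huv1 t).2.2.trans s.hb⟩
    let Tm : St L a0 b0 := ⟨a', b', s.x, ha'0, ha2, hb1, hb'0⟩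
    let T : MM τ → St L a0 b0 := fun m => match ofLex m with
      | Sum.inl t => Tl t
      | Sum.inr y => match ofLex y with
        | Sum.inl _ => Tm
        | Sum.inr t => Tr t
    refine ⟨T, ?_, ?_, rfl, ha4.le, hb4.le⟩
    · intro m
      rcases m with t | y
      · exact ⟨(huv t).1, (huv t).2.2.trans (by order)⟩
      · rcases y with y | t
        · exact ⟨ha3.le, hb3.le⟩
        · exact ⟨le_trans (by order) (huv1 t).1, (huv1 t).2.2⟩
    · intro m m' hmm
      rcases m with t | y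
      · rcases m' with t' | y'
        · exact huv' t t' (Sum.Lex.inl_lt_inl_iff.1 hmm)
        · rcases y' with y' | t'
          · exact (huv t).2.2
          · exact (huv t).2.2.trans (le_trans (by order) (huv1 t').1)
      · rcases m' with t' | y'
        · exact absurd hmm Sum.Lex.not_inr_lt_inl
        · have h1 := Sum.Lex.inr_lt_inr_iff.1 hmm
          rcases y with y | t
          · rcases y' with y' | t'
            · exact absurd (Sum.Lex.inl_lt_inl_iff.1 h1) (lt_irrefl _)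
            · exact (huv1 t').1
          · rcases y' with y' | t'
            · exact absurd h1 Sum.Lex.not_inr_lt_inl
            · exact huv1' t t' (Sum.Lex.inr_lt_inr_iff.1 h1)
  choose T hT using hT
  obtain ⟨x0, hx0, hx0'⟩ := exists_between h0
  exact emb_KK ⟨a0, b0, x0, le_rfl, hx0, hx0', le_rfl⟩ T exists_lt_zz exists_gt_zz Y Z
    (fun x hx _ => (hY x hx).2) (fun x _ hx => (hZ x hx).2) (fun k s => (hT k s).1)
    (fun k s => (hT k s).2.1) (fun k s => (hT k s).2.2.1) (fun k s => (hT k s).2.2.2)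

end Pool.Agent.Helper305.AD
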