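import Pool.Agent.Helper305_AD.B

/-!
# The ccc case
-/

set_option autoImplicit false

open Cardinal Set

namespace Pool.Agent.Helper305.AD

/-- The finite family `F` is a basis for the uncountable linear orders. -/
def BasisUncountable {n : ℕ} (F : Fin n → Type) [∀ i, LinearOrder (F i)] : Prop :=
  (∀ i, Uncountable (F i)) ∧
    ∀ (L : Type) [LinearOrder L], Uncountable L → ∃ i, Nonempty (F i ↪o L)

/-- a set of reals which meets every open interval in exactly `ℵ₁` points -/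
def AlephOneDenseReal (A : Set ℝ) : Prop := ∀ x y : ℝ, x < y → #(A ∩ Ioo x y : Set ℝ) = ℵ₁

/-- Baumgartner's axiom -/
def BaumgartnerAxiom : Prop :=
  ∀ A B : Set ℝ, AlephOneDenseReal A → AlephOneDenseReal B → Nonempty (A ≃o B)

/-- Suslin's hypothesis: every linearly ordered space with the countable chain condition is
separable. -/
def SuslinHypothesis : Prop :=
  ∀ (L : Type) [LinearOrder L] [TopologicalSpace L] [OrderTopology L],
    (∀ 𝒰 : Set (Set L), (∀ U ∈ 𝒰, IsOpen U ∧ U.Nonempty) → 𝒰.PairwiseDisjoint id → 𝒰.Countable) →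
    TopologicalSpace.SeparableSpace L

lemma real_of_separable {I : Type} [LinearOrder I] [DenselyOrdered I] [NoMinOrder I] [NoMaxOrder I]
    [Nonempty I] {D : Set I} (hDc : D.Countable) (hD : ∀ a b, a < b → ∃ d ∈ D, a < d ∧ d < b)
    (h1 : ∀ a b : I, a < b → #(Ioo a b) = ℵ₁) :
    ∃ A : Set ℝ, AlephOneDenseReal A ∧ Nonempty (I ≃o A) := by
  classical
  have : Countable D := hDc
  have : DenselyOrdered D := ⟨fun a b hab => by
    obtain ⟨d, hd, h2, h3⟩ := hD a.1 b.1 hab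
    exact ⟨⟨d, hd⟩, h2, h3⟩⟩
  have : NoMinOrder D := ⟨fun a => by
    obtain ⟨y, hy⟩ := exists_lt a.1
    obtain ⟨d, hd, h2, h3⟩ := hD y a.1 hy
    exact ⟨⟨d, hd⟩, h3⟩⟩
  have : NoMaxOrder D := ⟨fun a => by
    obtain ⟨y, hy⟩ := exists_gt a.1
    obtain ⟨d, hd, h2, h3⟩ := hD a.1 y hy
    exact ⟨⟨d, hd⟩, h2⟩⟩
  have : Nonempty D := by
    obtain ⟨x⟩ := (inferInstance : Nonempty I)
    obtain ⟨y, hy⟩ := exists_gt x
    obtain ⟨d, hd, _, _⟩ := hD x y hy
    exact ⟨⟨d, hd⟩⟩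
  obtain ⟨g⟩ := Order.iso_of_countable_dense D ℚ
  set S : I → Set ℝ := fun x => {r | ∃ d : D, d.1 < x ∧ r = (g d : ℝ)} with hS
  have hne : ∀ x, (S x).Nonempty := by
    intro x
    obtain ⟨y, hy⟩ := exists_lt x
    obtain ⟨d, hd, h2, h3⟩ := hD y x hy
    exact ⟨_, ⟨d, hd⟩, h3, rfl⟩
  have hle : ∀ (x : I) (d : D), x ≤ d.1 → ∀ r ∈ S x, r ≤ (g d : ℝ) := by
    rintro x d hxd r ⟨d', hd', rfl⟩
    have h2 : d' < d := show d'.1 < d.1 from lt_of_lt_of_le hd' hxd
    exact_mod_cast (g.lt_iff_lt.2 h2).le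
  have hbdd : ∀ x, BddAbove (S x) := by
    intro x
    obtain ⟨y, hy⟩ := exists_gt x
    obtain ⟨d, hd, h2, h3⟩ := hD x y hy
    exact ⟨_, hle x ⟨d, hd⟩ h2.le⟩
  set f : I → ℝ := fun x => sSup (S x) with hf
  have hf1 : ∀ (x : I) (d : D), x ≤ d.1 → f x ≤ g d := fun x d hxd => csSup_le (hne x) (hle x d hxd)
  have hf2 : ∀ (x : I) (d : D), d.1 < x → (g d : ℝ) ≤ f x :=
    fun x d hxd => le_csSup (hbdd x) ⟨d, hxd, rfl⟩
  have hmono : StrictMono f := by
    intro x y hxy
    obtain ⟨d, hd, h2, h3⟩ := hD x y hxy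
    obtain ⟨e, he, h4, h5⟩ := hD d y h3
    have h6 := hf1 x ⟨d, hd⟩ h2.le
    have h7 := hf2 y ⟨e, he⟩ h5
    have h8 : g ⟨d, hd⟩ < g ⟨e, he⟩ := g.lt_iff_lt.2 h4
    have h9 : (g ⟨d, hd⟩ : ℝ) < (g ⟨e, he⟩ : ℝ) := by exact_mod_cast h8
    linarith
  refine ⟨range f, ?_, ⟨hmono.orderIso f⟩⟩
  intro p q hpq
  apply le_antisymm
  · obtain ⟨r1, _, hr1⟩ := exists_rat_btwn (sub_one_lt p)
    obtain ⟨s2, hs2, _⟩ := exists_rat_btwn (lt_add_one q)
    obtain ⟨s1, hs1, _⟩ := exists_rat_btwn (lt_add_one (s2 : ℝ))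
    have hs1' : s2 < s1 := by exact_mod_cast hs1
    have h2 : (g.symm r1).1 < (g.symm s1).1 := by
      have h3 : r1 < s1 := by
        have : (r1 : ℝ) < s1 := by linarith
        exact_mod_cast this
      exact g.symm.lt_iff_lt.2 h3
    rw [← h1 _ _ h2]
    have h3 : range f ∩ Ioo p q ⊆ f '' Ioo (g.symm r1).1 (g.symm s1).1 := by
      rintro _ ⟨⟨x, rfl⟩, hx1, hx2⟩
      refine ⟨x, ⟨?_, ?_⟩, rfl⟩
      · by_contra hlt
        rw [not_lt] at hlt
        have := hf1 x _ hlt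
        rw [g.apply_symm_apply] at this
        linarith
      · by_contra hlt
        rw [not_lt] at hlt
        have h4 : (g.symm s2).1 < x := lt_of_lt_of_le (g.symm.lt_iff_lt.2 hs1') hlt
        have := hf2 x _ h4
        rw [g.apply_symm_apply] at this
        linarith
    exact (Cardinal.mk_le_mk_of_subset h3).trans Cardinal.mk_image_le
  · obtain ⟨r, hr1, hr2⟩ := exists_rat_btwn hpq
    obtain ⟨s, hs1, hs2⟩ := exists_rat_btwn hr2
    have hrs : r < s := by exact_mod_cast hs1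
    have h2 : (g.symm r).1 < (g.symm s).1 := g.symm.lt_iff_lt.2 hrs
    rw [← h1 _ _ h2, ← Cardinal.mk_image_eq hmono.injective]
    apply Cardinal.mk_le_mk_of_subset
    rintro _ ⟨x, ⟨hx1, hx2⟩, rfl⟩
    refine ⟨⟨x, rfl⟩, ?_, ?_⟩
    · have := hf2 x _ hx1
      rw [g.apply_symm_apply] at this
      linarith
    · have := hf1 x _ hx2.le
      rw [g.apply_symm_apply] at this
      linarith

lemma ccc_of_not_has {n : ℕ} {F : Fin n → Type} [∀ i, LinearOrder (F i)]
    (hF : BasisUncountable F) {L : Type} [LinearOrder L] [DenselyOrdered L] {a0 b0 : L}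
    (hn : ∀ i, ¬ Has (F i) a0 b0) [TopologicalSpace (Ioo a0 b0)] [OrderTopology (Ioo a0 b0)]
    (𝒰 : Set (Set (Ioo a0 b0))) (hU : ∀ U ∈ 𝒰, IsOpen U ∧ U.Nonempty)
    (hd : 𝒰.PairwiseDisjoint id) : 𝒰.Countable := by
  classical
  by_contra hunc
  have h1 : ∀ U : 𝒰, ∃ c d : Ioo a0 b0, c < d ∧ Ioo c d ⊆ U.1 := by
    intro U
    obtain ⟨hUo, x, hx⟩ := hU U.1 U.2
    obtain ⟨l, u, hlu, hsub⟩ := mem_nhds_iff_exists_Ioo_subset.1 (hUo.mem_nhds hx)
    exact ⟨l, u, hlu.1.trans hlu.2, hsub⟩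
  choose c d hcd hsub using h1
  have hdisj : ∀ U V : 𝒰, U ≠ V → ∀ x, x ∈ U.1 → x ∉ V.1 := by
    intro U V hUV x hxU hxV
    have := hd U.2 V.2 (fun h => hUV (Subtype.ext h))
    exact Set.disjoint_left.1 this hxU hxV
  have hinj : Function.Injective c := by
    intro U V hUV
    by_contra hne
    have h2 : c U < min (d U) (d V) := lt_min (hcd U) (hUV ▸ hcd V)
    obtain ⟨x, hx1, hx2⟩ := exists_between h2
    refine hdisj U V hne x (hsub U ⟨hx1, lt_of_lt_of_le hx2 (min_le_left _ _)⟩) (hsub V ⟨?_, ?_⟩)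
    · rw [← hUV]; exact hx1
    · exact lt_of_lt_of_le hx2 (min_le_right _ _)
  have hunc' : Uncountable (range c) := by
    rw [← not_countable_iff]
    intro hc
    apply hunc
    have h2 : Function.Injective fun U : 𝒰 => (⟨c U, U, rfl⟩ : range c) := fun U V hUV =>
      hinj (congrArg Subtype.val hUV)
    exact h2.countable
  obtain ⟨i, ⟨e⟩⟩ := hF.2 (range c) hunc'
  choose U hU' using fun t => (e t).2
  have hlt : ∀ t t', t < t' → c (U t) < c (U t') := by
    intro t t' htt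
    rw [hU', hU']
    exact e.lt_iff_lt.2 htt
  refine hn i ⟨fun t => (c (U t)).1, fun t => (d (U t)).1, fun t => ⟨(c (U t)).2.1.le, hcd (U t),
    (d (U t)).2.2.le⟩, fun t t' htt => ?_⟩
  have h4 := hlt t t' htt
  by_contra hlt'
  rw [not_le] at hlt'
  have h5 : c (U t') < min (d (U t)) (d (U t')) := lt_min hlt' (hcd _)
  obtain ⟨x, hx1, hx2⟩ := exists_between h5
  refine hdisj (U t) (U t') (fun h => ?_) x
    (hsub _ ⟨h4.trans hx1, lt_of_lt_of_le hx2 (min_le_left _ _)⟩)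
    (hsub _ ⟨hx1, lt_of_lt_of_le hx2 (min_le_right _ _)⟩)
  rw [h] at h4
  exact lt_irrefl _ h4

/-- an interval without uncountable families of disjoint subintervals is real -/
lemma real_interval {n : ℕ} {F : Fin n → Type} [∀ i, LinearOrder (F i)]
    (hF : BasisUncountable F) (hSH : SuslinHypothesis) {L : Type} [LinearOrder L] (hL : InC L)
    {a0 b0 : L} (h0 : a0 < b0) (hn : ∀ i, ¬ Has (F i) a0 b0) :
    ∃ A : Set ℝ, AlephOneDenseReal A ∧ Nonempty (Ioo a0 b0 ≃o A) := by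
  have := hL.1.denselyOrdered
  let _ : TopologicalSpace (Ioo a0 b0) := Preorder.topology _
  have : OrderTopology (Ioo a0 b0) := ⟨rfl⟩
  obtain ⟨D, hDc, hD⟩ := hSH (Ioo a0 b0) (ccc_of_not_has hF hn)
  have : Nonempty (Ioo a0 b0) := by
    obtain ⟨x, hx⟩ := exists_between h0
    exact ⟨⟨x, hx⟩⟩
  refine real_of_separable hDc (fun a b hab => ?_) fun a b hab => ?_
  · obtain ⟨x, hx, hxD⟩ := hD.inter_open_nonempty (Ioo a b) isOpen_Ioo (nonempty_Ioo.2 hab)
    exact ⟨x, hxD, hx.1, hx.2⟩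
  · rw [← hL.1.2 a.1 b.1 hab, ← Cardinal.mk_image_eq (s := Ioo a b) Subtype.val_injective]
    congr 1
    congr 1
    ext x
    constructor
    · rintro ⟨y, hy, rfl⟩
      exact hy
    · intro hx
      exact ⟨⟨x, a.2.1.trans hx.1, hx.2.trans b.2.2⟩, hx, rfl⟩

lemma inC_real {B : Set ℝ} (hB : AlephOneDenseReal B) : InC B := by
  have hne : ∀ x y : ℝ, x < y → ∃ b ∈ B, x < b ∧ b < y := by
    intro x y hxy
    have h2 : Nonempty (B ∩ Ioo x y : Set ℝ) := by
      rw [← Cardinal.mk_ne_zero_iff, hB x y hxy]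
      exact (Cardinal.aleph_pos 1).ne'
    obtain ⟨b, hb⟩ := h2
    exact ⟨b, hb.1, hb.2⟩
  refine ⟨⟨?_, ?_⟩, ?_⟩
  · obtain ⟨b, hb, _, hb1⟩ := hne 0 1 one_pos
    obtain ⟨c, hc, hc1, _⟩ := hne 1 2 one_lt_two
    exact ⟨⟨b, hb⟩, ⟨c, hc⟩, fun h => by
      have := congrArg Subtype.val h
      simp only at this
      linarith⟩
  · intro a b hab
    rw [← hB a.1 b.1 hab, ← Cardinal.mk_image_eq (s := Ioo a b) Subtype.val_injective]
    congr 1
    congr 1
    ext x
    constructor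
    · rintro ⟨y, hy, rfl⟩
      exact ⟨y.2, hy⟩
    · intro hx
      exact ⟨⟨x, hx.1⟩, hx.2, rfl⟩
  · intro x
    constructor
    · intro _
      choose s hs1 hs2 hs3 using fun n : ℕ => hne (x.1 - 1 / (n + 1)) x.1
        (by have : (0 : ℝ) < 1 / (n + 1) := by positivity
            linarith)
      refine ⟨range fun n => (⟨s n, hs1 n⟩ : B), ?_, countable_range _, ?_, ?_⟩
      · rintro _ ⟨n, rfl⟩
        exact hs3 n
      · rintro _ ⟨n, rfl⟩
        exact (hs3 n).le
      · intro y hy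
        by_contra hlt
        rw [not_le] at hlt
        have hlt' : y.1 < x.1 := hlt
        obtain ⟨n, hn⟩ := exists_nat_one_div_lt (sub_pos.2 hlt')
        have h1 : s n ≤ y.1 := hy ⟨n, rfl⟩
        have h2 := hs2 n
        linarith
    · intro _
      choose s hs1 hs2 hs3 using fun n : ℕ => hne x.1 (x.1 + 1 / (n + 1))
        (by have : (0 : ℝ) < 1 / (n + 1) := by positivity
            linarith)
      refine ⟨range fun n => (⟨s n, hs1 n⟩ : B), ?_, countable_range _, ?_, ?_⟩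
      · rintro _ ⟨n, rfl⟩
        exact hs2 n
      · rintro _ ⟨n, rfl⟩
        exact (hs2 n).le
      · intro y hy
        by_contra hlt
        rw [not_le] at hlt
        have hlt' : x.1 < y.1 := hlt
        obtain ⟨n, hn⟩ := exists_nat_one_div_lt (sub_pos.2 hlt')
        have h1 : y.1 ≤ s n := hy ⟨n, rfl⟩
        have h2 := hs3 n
        linarith

lemma emb_interval {B L : Type} [LinearOrder B] [LinearOrder L] [DenselyOrdered L] {a0 b0 : L}
    (e : B ≃o Ioo a0 b0) : LOTSEmb B L := by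
  have hmono : StrictMono fun b => (e b).1 := fun x y hxy => e.lt_iff_lt.2 hxy
  refine ⟨_, hmono, continuous_of_strictMono hmono ?_ ?_⟩
  · intro a u hu
    right
    obtain ⟨y, hy1, hy2⟩ := exists_between (max_lt hu (e a).2.1)
    have hy3 : y ∈ Ioo a0 b0 := ⟨lt_of_le_of_lt (le_max_right _ _) hy1, hy2.trans (e a).2.2⟩
    refine ⟨e.symm ⟨y, hy3⟩, ?_, ?_⟩
    · rw [← e.lt_iff_lt, e.apply_symm_apply]; exact hy2
    · simp only [e.apply_symm_apply]
      exact lt_of_le_of_lt (le_max_left _ _) hy1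
  · intro a u hu
    right
    obtain ⟨y, hy1, hy2⟩ := exists_between (lt_min hu (e a).2.2)
    have hy3 : y ∈ Ioo a0 b0 := ⟨(e a).2.1.trans hy1, lt_of_lt_of_le hy2 (min_le_right _ _)⟩
    refine ⟨e.symm ⟨y, hy3⟩, ?_, ?_⟩
    · rw [← e.lt_iff_lt, e.apply_symm_apply]; exact hy1
    · simp only [e.apply_symm_apply]
      exact lt_of_lt_of_le hy2 (min_le_left _ _)

lemma Has.mono {τ : Type} [LinearOrder τ] {L : Type} [LinearOrder L] {a b a' b' : L}
    (h : Has τ a b) (ha : a' ≤ a) (hb : b ≤ b') : Has τ a' b' := by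
  obtain ⟨u, v, h1, h2⟩ := h
  exact ⟨u, v, fun t => ⟨ha.trans (h1 t).1, (h1 t).2.1, (h1 t).2.2.trans hb⟩, h2⟩

lemma Has.card {τ : Type} [LinearOrder τ] [Uncountable τ] {L : Type} [LinearOrder L] (hL : InC L)
    {a b : L} (hab : a < b) (h : Has τ a b) : #τ = ℵ₁ := by
  obtain ⟨u, v, h1, h2⟩ := h
  apply le_antisymm
  · have h3 : ∀ t, u t ∈ Icc a b := fun t => ⟨(h1 t).1, (h1 t).2.1.le.trans (h1 t).2.2⟩
    have h4 : Function.Injective fun t : τ => (⟨u t, h3 t⟩ : Icc a b) := by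
      intro t t' htt
      have h5 : u t = u t' := congrArg Subtype.val htt
      rcases lt_trichotomy t t' with h6 | h6 | h6
      · have := (h1 t).2.1.trans_le (h2 t t' h6)
        exact absurd h5 this.ne
      · exact h6
      · have := (h1 t').2.1.trans_le (h2 t' t h6)
        exact absurd h5.symm this.ne
    refine (Cardinal.mk_le_of_injective h4).trans ?_
    have h5 : Icc a b = insert a (insert b (Ioo a b)) := by
      ext x
      simp only [mem_Icc, mem_insert_iff, mem_Ioo]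
      constructor
      · rintro ⟨h6, h7⟩
        rcases h6.eq_or_lt with h8 | h8
        · left; exact h8.symm
        · rcases h7.eq_or_lt with h9 | h9
          · right; left; exact h9
          · right; right; exact ⟨h8, h9⟩
      · rintro (rfl | rfl | ⟨h6, h7⟩)
        · exact ⟨le_rfl, hab.le⟩
        · exact ⟨hab.le, le_rfl⟩
        · exact ⟨h6.le, h7.le⟩
    have h6 : (ℵ₀ : Cardinal.{0}) ≤ ℵ₁ := Cardinal.aleph0_le_aleph 1
    have h7 : (1 : Cardinal.{0}) ≤ ℵ₁ := Cardinal.one_le_aleph0.trans h6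
    rw [h5]
    refine (Cardinal.mk_insert_le).trans ?_
    refine (add_le_add (Cardinal.mk_insert_le) le_rfl).trans ?_
    rw [hL.1.2 a b hab, Cardinal.add_eq_left h6 h7, Cardinal.add_eq_left h6 h7]
  · have h3 : ℵ₀ < #τ := by
      rw [← not_le, Cardinal.mk_le_aleph0_iff, not_countable_iff]
      infer_instance
    rw [← Cardinal.succ_aleph0]
    exact Order.succ_le_of_lt h3

theorem main {n : ℕ} (F : Fin n → Type) [∀ i, LinearOrder (F i)] (hF : BasisUncountable F)
    (hBA : BaumgartnerAxiom) (hSH : SuslinHypothesis) :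
    ∃ (B : Fin (n + 1) → Type) (_ : ∀ i, LinearOrder (B i)), (∀ i, InC (B i)) ∧
      ∀ (L : Type) [LinearOrder L], InC L → ∃ i, LOTSEmb (B i) L := by
  classical
  have hfill : InC (K (Cardinal.ord ℵ₁).ToType) := inC_K (Cardinal.mk_ord_toType _)
  have key : ∀ j : Option (Fin n), ∃ (B : Type) (_ : LinearOrder B), InC B ∧
      (match j with
      | none => ∀ (L : Type) [LinearOrder L], InC L → (∃ (a0 b0 : L) (A : Set ℝ),
          AlephOneDenseReal A ∧ Nonempty (Ioo a0 b0 ≃o A)) → LOTSEmb B L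
      | some i => ∀ (L : Type) [LinearOrder L], InC L → (∃ a0 b0 : L, a0 < b0 ∧
          ∀ a b : L, a0 ≤ a → a < b → b ≤ b0 → Has (F i) a b) → LOTSEmb B L) := by
    intro j
    rcases j with _ | i
    · by_cases hA : ∃ B : Set ℝ, AlephOneDenseReal B
      · obtain ⟨B, hB⟩ := hA
        refine ⟨B, inferInstance, inC_real hB, ?_⟩
        rintro L _ hL ⟨a0, b0, A, hA, ⟨e⟩⟩
        have := hL.1.denselyOrdered
        obtain ⟨e'⟩ := hBA B A hB hA
        exact emb_interval (e'.trans e.symm)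
      · refine ⟨_, inferInstance, hfill, ?_⟩
        rintro L _ hL ⟨a0, b0, A, hA', _⟩
        exact absurd ⟨A, hA'⟩ hA
    · by_cases hc : #(F i) = ℵ₁
      · refine ⟨K (F i), inferInstance, inC_K hc, ?_⟩
        rintro L _ hL ⟨a0, b0, h0, h1⟩
        have := hL.1.denselyOrdered
        have : Nonempty (F i) := by
          rw [← Cardinal.mk_ne_zero_iff, hc]
          exact (Cardinal.aleph_pos 1).ne'
        exact emb_K hL.2 h0 h1
      · refine ⟨_, inferInstance, hfill, ?_⟩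
        rintro L _ hL ⟨a0, b0, h0, h1⟩
        have := hF.1 i
        exact absurd ((h1 a0 b0 le_rfl h0 le_rfl).card hL h0) hc
  choose B iB hB1 hB2 using key
  refine ⟨fun k => B (finSuccEquiv n k), fun k => iB (finSuccEquiv n k), fun k => hB1 _, ?_⟩
  intro L _ hL
  obtain ⟨j, hj⟩ : ∃ j, @LOTSEmb (B j) L (iB j) _ := by
    have hnt := hL.1.1
    -- an interval with the least number of types
    have hex : ∃ m : ℕ, ∃ a0 b0 : L, a0 < b0 ∧
        (Finset.univ.filter fun i => Has (F i) a0 b0).card = m := by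
      obtain ⟨a0, b0, h0⟩ := exists_pair_lt L
      exact ⟨_, a0, b0, h0, rfl⟩
    obtain ⟨a0, b0, h0, hm⟩ := Nat.find_spec hex
    have hmin : ∀ a b : L, a0 ≤ a → a < b → b ≤ b0 → ∀ i, Has (F i) a0 b0 → Has (F i) a b := by
      intro a b ha hab hb i hi
      have h1 : Nat.find hex ≤ (Finset.univ.filter fun i => Has (F i) a b).card :=
        Nat.find_min' hex ⟨a, b, hab, rfl⟩
      have h2 : (Finset.univ.filter fun i => Has (F i) a b) ⊆
          Finset.univ.filter fun i => Has (F i) a0 b0 := by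
        intro k hk
        rw [Finset.mem_filter] at hk ⊢
        exact ⟨Finset.mem_univ _, hk.2.mono ha hb⟩
      have h3 := Finset.eq_of_subset_of_card_le h2 (by rw [hm]; exact h1)
      have h4 : i ∈ Finset.univ.filter fun i => Has (F i) a0 b0 :=
        Finset.mem_filter.2 ⟨Finset.mem_univ _, hi⟩
      rw [← h3] at h4
      exact (Finset.mem_filter.1 h4).2
    by_cases hi : ∃ i, Has (F i) a0 b0
    · obtain ⟨i, hi⟩ := hi
      exact ⟨some i, hB2 (some i) L hL ⟨a0, b0, h0, fun a b ha hab hb => hmin a b ha hab hb i hi⟩⟩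
    · push Not at hi
      obtain ⟨A, hA, he⟩ := real_interval hF hSH hL h0 hi
      exact ⟨none, hB2 none L hL ⟨a0, b0, A, hA, he⟩⟩
  refine ⟨(finSuccEquiv n).symm j, ?_⟩
  have h1 : finSuccEquiv n ((finSuccEquiv n).symm j) = j := (finSuccEquiv n).apply_symm_apply j
  show @LOTSEmb (B (finSuccEquiv n ((finSuccEquiv n).symm j))) L
    (iB (finSuccEquiv n ((finSuccEquiv n).symm j))) _
  rw [h1]
  exact hj

end Pool.Agent.Helper305.AD
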